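import Pool.Agent.H477.O.Stm
import Pool.Graph.R_seed8.H353R6.E10

set_option autoImplicit false

/-! Decay of one gamma factor on vertical lines, away from the real axis (`S_GAM1`). -/

open Complex Set Filter Topology

namespace Pool.Agent.H627.O

open H370.DG H353.E Pool.Agent.H477.O

/-- imaginary part of the reciprocal -/
lemma inv_im_eq (z : ℂ) : (1 / z).im = -z.im / normSq z := by
  rw [one_div, inv_im]

lemma neg_inv_im (z : ℂ) : -(1 / z).im = z.im / normSq z := by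
  rw [inv_im_eq]; ring

/-- a term of the series, from below -/
lemma term_lo {a b T σ : ℝ} (hσ : σ = 1 ∨ σ = -1) (hT : 1 ≤ T) (hb : σ * b = T) (ha : 0 ≤ a) (ha2 : a ≤ 2 * T) :
    1 / (5 * T) ≤ σ * (b / (a * a + b * b)) := by
  have hT0 : 0 < T := by linarith
  have hbb : b * b = T * T := by
    rcases hσ with h | h <;> rw [h] at hb <;> rw [← hb] <;> ring
  have h1 : σ * (b / (a * a + b * b)) = T / (a * a + T * T) := by
    rw [hbb, ← hb]; ring
  rw [h1]
  have h2 : a * a ≤ 2 * T * (2 * T) := mul_self_le_mul_self ha ha2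
  have h3 : 0 < a * a + T * T := by positivity
  rw [div_le_div_iff₀ (by positivity) h3]
  linarith

lemma term_nonneg {a b T σ : ℝ} (hb : σ * b = T) (hT : 0 ≤ T) : 0 ≤ σ * (b / (a * a + b * b)) := by
  have h1 : σ * (b / (a * a + b * b)) = T / (a * a + b * b) := by
    rw [← hb]; ring
  rw [h1]
  have : 0 ≤ a * a + b * b := by nlinarith [mul_self_nonneg a, mul_self_nonneg b]
  positivity

lemma gd_im (n : ℕ) (s : ℂ) : (gd n s).im = s.im / ((s.re + (n + 2)) * (s.re + (n + 2)) + s.im * s.im) := by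
  have h1 : (s + ((n : ℂ) + 2)).re = s.re + (n + 2) := by simp
  have h2 : (s + ((n : ℂ) + 2)).im = s.im := by simp
  rw [gd, sub_im, ofReal_im, zero_sub, neg_inv_im, normSq_apply, h1, h2]

/-- the imaginary part of the digamma function, from below -/
lemma dig_im_lo {s : ℂ} {σ : ℝ} (hσ : σ = 1 ∨ σ = -1) (hs : 0 < s.re) (h1 : s.re ≤ σ * s.im) (h2 : 1 ≤ σ * s.im) :
    1 / 5 ≤ σ * (logDeriv Gamma s).im := by
  obtain ⟨T, hT⟩ : ∃ T : ℝ, σ * s.im = T := ⟨_, rfl⟩
  rw [hT] at h1 h2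
  have hT0 : 0 < T := by linarith
  have hsum : Summable (fun n => gd n s) := summable_gd (by linarith)
  have him : HasSum (fun n => (gd n s).im) (∑' n, gd n s).im := hasSum_im hsum.hasSum
  have hsum' : HasSum (fun n => σ * (gd n s).im) (σ * (∑' n, gd n s).im) := him.mul_left σ
  have e1 : (logDeriv Gamma s).im = s.im / (s.re * s.re + s.im * s.im) +
      s.im / ((s.re + 1) * (s.re + 1) + s.im * s.im) + (∑' n, gd n s).im := by
    rw [logDeriv_Gamma hs, add_im, sub_im, neg_im, neg_inv_im, sub_eq_add_neg, neg_inv_im, normSq_apply, normSq_apply]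
    simp
  have hN := Nat.floor_le hT0.le
  have hN1 := Nat.lt_floor_add_one T
  obtain ⟨N, hNdef⟩ : ∃ N, ⌊T⌋₊ = N := ⟨_, rfl⟩
  rw [hNdef] at hN hN1
  have hNpos : 1 ≤ N := by
    rw [← hNdef]
    exact Nat.le_floor (by simpa using h2)
  have e2 : ((N - 1 : ℕ) : ℝ) = N - 1 := by
    rw [Nat.cast_sub hNpos]; simp
  have h3 : ∑ _n ∈ Finset.range (N - 1), 1 / (5 * T) ≤ ∑ n ∈ Finset.range (N - 1), σ * (gd n s).im := by
    refine Finset.sum_le_sum fun n hn => ?_
    have hn' : n + 2 ≤ N := by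
      have := Finset.mem_range.1 hn
      omega
    have hn'' : (n : ℝ) + 2 ≤ N := by exact_mod_cast hn'
    rw [gd_im]
    have hn0 : (0 : ℝ) ≤ n := Nat.cast_nonneg n
    exact term_lo hσ h2 hT (by linarith) (by linarith)
  have h4 : ∑ n ∈ Finset.range (N - 1), σ * (gd n s).im ≤ σ * (∑' n, gd n s).im := by
    refine sum_le_hasSum _ (fun n _ => ?_) hsum'
    rw [gd_im]
    exact term_nonneg hT hT0.le
  have h5 : 1 / (5 * T) ≤ σ * (s.im / (s.re * s.re + s.im * s.im)) := term_lo hσ h2 hT hs.le (by linarith)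
  have h6 : 1 / (5 * T) ≤ σ * (s.im / ((s.re + 1) * (s.re + 1) + s.im * s.im)) :=
    term_lo hσ h2 hT (by linarith) (by linarith)
  rw [Finset.sum_const, Finset.card_range, nsmul_eq_mul, e2] at h3
  rw [e1, mul_add, mul_add]
  have h7 : 1 / 5 ≤ (N + 1 : ℝ) * (1 / (5 * T)) := by
    rw [mul_one_div, div_le_div_iff₀ (by norm_num) (by positivity)]
    linarith
  have h8 : (N + 1 : ℝ) * (1 / (5 * T)) = 1 / (5 * T) + 1 / (5 * T) + ((N : ℝ) - 1) * (1 / (5 * T)) := by ring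
  linarith

/-- derivative of the logarithm of the modulus -/
lemma hasDerivAt_log_norm {f : ℝ → ℂ} {f' : ℂ} {t : ℝ} (hf : HasDerivAt f f' t) (h0 : f t ≠ 0) :
    HasDerivAt (fun τ => Real.log ‖f τ‖) (f' / f t).re t := by
  have hre : HasDerivAt (fun τ => (f τ).re) f'.re t := by
    have := (Complex.reCLM.hasFDerivAt (x := f t)).comp_hasDerivAt t hf
    exact this
  have him : HasDerivAt (fun τ => (f τ).im) f'.im t := by
    have := (Complex.imCLM.hasFDerivAt (x := f t)).comp_hasDerivAt t hf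
    exact this
  have hn : HasDerivAt (fun τ => (f τ).re * (f τ).re + (f τ).im * (f τ).im)
      (f'.re * (f t).re + (f t).re * f'.re + (f'.im * (f t).im + (f t).im * f'.im)) t :=
    (hre.fun_mul hre).fun_add (him.fun_mul him)
  have hpos : (f t).re * (f t).re + (f t).im * (f t).im ≠ 0 := by
    rw [← normSq_apply]
    exact (normSq_pos.2 h0).ne'
  have hl := (hn.log hpos).div_const 2
  have e : (fun τ => Real.log ‖f τ‖) = fun τ => Real.log ((f τ).re * (f τ).re + (f τ).im * (f τ).im) / 2 := by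
    funext τ
    rw [← normSq_apply, Complex.normSq_eq_norm_sq, Real.log_pow]
    push_cast
    ring
  rw [e]
  refine hl.congr_deriv ?_
  rw [Complex.div_re, normSq_apply]
  field_simp
  ring

lemma logder {x Y σ : ℝ} (hx : 0 < x) (t : ℝ) :
    HasDerivAt (fun τ : ℝ => Real.log ‖Gammaℝ (x + (Y + σ * τ : ℝ) * I)‖)
      (-(σ * (logDeriv Gamma ((x + (Y + σ * t : ℝ) * I) / 2)).im / 2)) t := by
  have hs : 0 < ((x : ℂ) + (Y + σ * t : ℝ) * I - 0).re := by simpa using hx
  have h1 := hasDerivAt_GammaR (μ := 0) (s := (x : ℂ) + (Y + σ * t : ℝ) * I) hs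
  simp only [sub_zero] at h1 hs
  have h2 : HasDerivAt (fun τ : ℝ => (x : ℂ) + (Y + σ * τ : ℝ) * I) ((σ : ℂ) * I) t := by
    have h3 : HasDerivAt (fun τ : ℝ => (Y + σ * τ : ℝ)) σ t := by
      simpa using ((hasDerivAt_id t).const_mul σ).const_add Y
    have h4 : HasDerivAt (fun τ : ℝ => ((Y + σ * τ : ℝ) : ℂ)) (σ : ℂ) t := h3.ofReal_comp
    exact (h4.mul_const I).const_add _
  have h5 := h1.comp t h2
  have hne : Gammaℝ ((x : ℂ) + (Y + σ * t : ℝ) * I) ≠ 0 := Gammaℝ_ne_zero_of_re_pos hs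
  have h6 := hasDerivAt_log_norm h5 hne
  refine h6.congr_deriv ?_
  simp only [Function.comp_apply]
  rw [mul_assoc, mul_div_cancel_left₀ _ hne]
  have h2' : (logDeriv Gamma ((x + (Y + σ * t : ℝ) * I) / 2) / 2).im =
      (logDeriv Gamma ((x + (Y + σ * t : ℝ) * I) / 2)).im / 2 := by
    rw [show (2 : ℂ) = ((2 : ℝ) : ℂ) by norm_num, Complex.div_ofReal_im]
  have h3' : ((((-(Real.log Real.pi) / 2 : ℝ) : ℂ) + logDeriv Gamma ((x + (Y + σ * t : ℝ) * I) / 2) / 2) *
      ((σ : ℂ) * I)).re = -(σ * (logDeriv Gamma ((x + (Y + σ * t : ℝ) * I) / 2) / 2).im) := by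
    simp only [mul_re, mul_im, add_re, add_im, ofReal_re, ofReal_im, I_re, I_im]
    ring
  rw [h3', h2']
  ring

theorem gam1 : S_GAM1 := by
  intro R₀ S hR hS
  refine ⟨1 / 10, Real.exp (6 * (S + 5 / 2 + R₀)), by norm_num, Real.one_le_exp (by linarith), ?_⟩
  intro x Y τ σ hx hxR hσ hY hτ
  have hx0 : 0 < x := by linarith
  obtain ⟨G, hG⟩ : ∃ G : ℝ → ℝ, G = fun τ : ℝ => Real.log ‖Gammaℝ (x + (Y + σ * τ : ℝ) * I)‖ := ⟨_, rfl⟩
  have hder : ∀ t, HasDerivAt G (-(σ * (logDeriv Gamma ((x + (Y + σ * t : ℝ) * I) / 2)).im / 2)) t := by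
    intro t
    rw [hG]
    exact logder hx0 t
  have hcont : Continuous G := continuous_iff_continuousAt.2 fun t => (hder t).continuousAt
  have hre : ∀ t : ℝ, (((x : ℂ) + (Y + σ * t : ℝ) * I) / 2).re = x / 2 := by
    intro t
    rw [show (2 : ℂ) = ((2 : ℝ) : ℂ) by norm_num, Complex.div_ofReal_re]
    simp
  have him : ∀ t : ℝ, (((x : ℂ) + (Y + σ * t : ℝ) * I) / 2).im = (Y + σ * t) / 2 := by
    intro t
    rw [show (2 : ℂ) = ((2 : ℝ) : ℂ) by norm_num, Complex.div_ofReal_im]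
    simp
  have hσσ : σ * σ = 1 := by rcases hσ with h | h <;> rw [h] <;> norm_num
  have hup : ∀ t, deriv G t ≤ 11 / 2 := by
    intro t
    rw [(hder t).deriv]
    have h1 := abs_le.1 (dig_im (s := ((x : ℂ) + (Y + σ * t : ℝ) * I) / 2) (by rw [hre]; linarith))
    rcases hσ with h | h <;> rw [h] at h1 ⊢ <;> linarith [h1.1, h1.2]
  have hlo : ∀ t, S + 5 / 2 + R₀ ≤ t → deriv G t ≤ -(1 / 10) := by
    intro t ht
    rw [(hder t).deriv]
    have e : σ * ((Y + σ * t) / 2) = (σ * Y + t) / 2 := by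
      have : σ * ((Y + σ * t) / 2) = (σ * Y + σ * σ * t) / 2 := by ring
      rw [this, hσσ, one_mul]
    have h1 := dig_im_lo (s := ((x : ℂ) + (Y + σ * t : ℝ) * I) / 2) hσ (by rw [hre]; linarith)
      (by rw [hre, him, e]; linarith) (by rw [him, e]; linarith)
    linarith
  have hd : ∀ t, DifferentiableAt ℝ G t := fun t => (hder t).differentiableAt
  have key1 : ∀ t, 0 ≤ t → G t - G 0 ≤ 11 / 2 * (t - 0) := fun t ht =>
    (convex_univ).image_sub_le_mul_sub_of_deriv_le (C := 11 / 2) hcont.continuousOn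
      (fun u _ => (hd u).differentiableWithinAt) (fun u _ => hup u) 0 (mem_univ _) t (mem_univ _) ht
  have key2 : ∀ t, S + 5 / 2 + R₀ ≤ t → G t - G (S + 5 / 2 + R₀) ≤ -(1 / 10) * (t - (S + 5 / 2 + R₀)) := fun t ht =>
    (convex_Ici (S + 5 / 2 + R₀)).image_sub_le_mul_sub_of_deriv_le (C := -(1 / 10)) hcont.continuousOn
      (fun u _ => (hd u).differentiableWithinAt)
      (fun u hu => hlo u (by rw [interior_Ici] at hu; exact (mem_Ioi.1 hu).le)) _ (mem_Ici.2 le_rfl) t (mem_Ici.2 ht) ht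
  have key : G τ ≤ 6 * (S + 5 / 2 + R₀) + G 0 + -(1 / 10 * τ) := by
    rcases le_total τ (S + 5 / 2 + R₀) with h | h
    · have := key1 τ hτ
      linarith
    · have h1 := key1 (S + 5 / 2 + R₀) (by linarith)
      have h2 := key2 τ h
      linarith
  have hne : ∀ t : ℝ, 0 < ‖Gammaℝ (x + (Y + σ * t : ℝ) * I)‖ := by
    intro t
    rw [norm_pos_iff]
    exact Gammaℝ_ne_zero_of_re_pos (by simpa using hx0)
  have hexp : ∀ t : ℝ, ‖Gammaℝ (x + (Y + σ * t : ℝ) * I)‖ = Real.exp (G t) := by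
    intro t
    rw [hG]
    exact (Real.exp_log (hne t)).symm
  have h0 : ‖Gammaℝ (x + (Y : ℝ) * I)‖ = Real.exp (G 0) := by
    rw [← hexp 0]
    simp
  rw [hexp τ, h0, ← Real.exp_add, ← Real.exp_add]
  exact Real.exp_le_exp.2 key

end Pool.Agent.H627.O
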